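import Mathlib

/-!
# The Bezout inequality for the non-degenerate real zeros of a square polynomial system
-/

set_option autoImplicit false

namespace Pool.Agent.Helper59.BZ
open MvPolynomial Filter Topology

variable {σ : Type*} [Fintype σ] [DecidableEq σ]

/-- Exponents of weighted degree at most `s`. -/
def cnt (d : σ → ℕ) (s : ℕ) : Finset (σ → ℕ) :=
  (Fintype.piFinset fun _ => Finset.range (s + 1)).filter (fun a => ∑ i, a i * d i ≤ s)

theorem mem_cnt {d : σ → ℕ} (hd : ∀ i, 1 ≤ d i) {s : ℕ} {a : σ → ℕ} :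
    a ∈ cnt d s ↔ ∑ i, a i * d i ≤ s := by
  simp only [cnt, Finset.mem_filter, Fintype.mem_piFinset, Finset.mem_range]
  refine ⟨fun h => h.2, fun h => ⟨fun i => ?_, h⟩⟩
  have h1 : a i * d i ≤ ∑ i, a i * d i :=
    Finset.single_le_sum (f := fun i => a i * d i) (fun _ _ => Nat.zero_le _) (Finset.mem_univ i)
  have h2 := Nat.le_mul_of_pos_right (a i) (hd i)
  omega

theorem card_one_le (d : σ → ℕ) (hd : ∀ i, 1 ≤ d i) (s : ℕ) :
    (cnt (fun _ : σ => 1) s).card ≤ (∏ i, d i) * (cnt d s).card := by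
  have h : (cnt (fun _ : σ => 1) s).card
      ≤ ((Fintype.piFinset fun i => Finset.range (d i)) ×ˢ (cnt d s)).card := by
    refine Finset.card_le_card_of_injOn (fun b => (fun i => b i % d i, fun i => b i / d i)) ?_ ?_
    · intro b hb
      rw [Finset.mem_coe, mem_cnt (fun _ => le_rfl)] at hb
      rw [Finset.mem_coe, Finset.mem_product]
      refine ⟨?_, ?_⟩
      · rw [Fintype.mem_piFinset]
        intro i
        rw [Finset.mem_range]
        exact Nat.mod_lt _ (hd i)
      · rw [mem_cnt hd]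
        refine le_trans (Finset.sum_le_sum fun i _ => ?_) hb
        simpa using Nat.div_mul_le_self (b i) (d i)
    · intro b _ b' _ hbb
      simp only [Prod.mk.injEq] at hbb
      funext i
      have h1 := congrFun hbb.1 i
      have h2 := congrFun hbb.2 i
      rw [← Nat.div_add_mod (b i) (d i), ← Nat.div_add_mod (b' i) (d i), h1, h2]
  rwa [Finset.card_product, Fintype.card_piFinset, Finset.prod_congr rfl
    (fun i _ => Finset.card_range (d i))] at h

theorem card_cnt_le (d : σ → ℕ) (s : ℕ) : (cnt d s).card ≤ (s + 1) ^ Fintype.card σ := by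
  refine (Finset.card_filter_le _ _).trans ?_
  rw [Fintype.card_piFinset]
  simp

theorem card_le_of_li {ι : Type*} [Fintype ι] (p : ι → MvPolynomial σ ℝ)
    (hp : LinearIndependent ℝ p) (D : ℕ) (hD : ∀ i, (p i).totalDegree ≤ D) :
    Fintype.card ι ≤ (cnt (fun _ : σ => 1) D).card := by
  let p' : ι → restrictTotalDegree σ ℝ D := fun i =>
    ⟨p i, (mem_restrictTotalDegree _ _ _).mpr (hD i)⟩
  have hp' : LinearIndependent ℝ p' := by
    refine LinearIndependent.of_comp (restrictTotalDegree σ ℝ D).subtype ?_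
    exact hp
  have h1 := hp'.fintype_card_le_finrank
  refine h1.trans ?_
  have hfr : Module.finrank ℝ (restrictTotalDegree σ ℝ D)
      = Nat.card { n : σ →₀ ℕ | (n.sum fun _ e => e) ≤ D } :=
    Module.finrank_eq_nat_card_basis
      (basisRestrictSupport ℝ { n : σ →₀ ℕ | (n.sum fun _ e => e) ≤ D })
  rw [hfr, ← Fintype.card_coe, ← Nat.card_eq_fintype_card]
  refine Nat.card_le_card_of_injective
    (fun n => (⟨(n.1 : σ →₀ ℕ), ?_⟩ : {x // x ∈ cnt (fun _ : σ => 1) D})) ?_
  · rw [mem_cnt (fun _ => le_rfl)]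
    have := n.2
    simp only [Set.mem_ofPred_eq] at this
    rw [Finsupp.sum_fintype _ _ (fun _ => rfl)] at this
    simpa using this
  · intro n m hnm
    simp only [Subtype.mk.injEq] at hnm
    exact Subtype.ext (DFunLike.coe_injective hnm)

/-- A polynomial which is `1` at `z` and `0` on a finite set not containing `z`. -/
theorem exists_sep (z : σ → ℝ) (Z : Finset (σ → ℝ)) (hz : z ∉ Z) :
    ∃ p : MvPolynomial σ ℝ, eval z p = 1 ∧ ∀ w ∈ Z, eval w p = 0 := by
  classical
  induction Z using Finset.induction_on with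
  | empty => exact ⟨1, by simp, by simp⟩
  | insert a Z ha ih =>
    rw [Finset.mem_insert, not_or] at hz
    obtain ⟨p, hp1, hp0⟩ := ih hz.2
    obtain ⟨i, hi⟩ := Function.ne_iff.mp hz.1
    refine ⟨p * (C (z i - a i)⁻¹ * (X i - C (a i))), ?_, ?_⟩
    · simp [hp1, inv_mul_cancel₀ (sub_ne_zero.mpr hi)]
    · intro w hw
      rw [Finset.mem_insert] at hw
      rcases hw with rfl | hw
      · simp
      · simp [hp0 w hw]

/-- A polynomial which separates the points of a finite family. -/
theorem exists_distinct {m : ℕ} (z : Fin m → (σ → ℝ)) (hz : Function.Injective z) :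
    ∃ l : MvPolynomial σ ℝ, ∀ j, eval (z j) l = (j : ℕ) := by
  classical
  have h : ∀ j : Fin m, ∃ p : MvPolynomial σ ℝ, eval (z j) p = 1 ∧ ∀ i, i ≠ j → eval (z i) p = 0 := by
    intro j
    obtain ⟨p, h1, h0⟩ := exists_sep (z j) ((Finset.univ.erase j).image z) (by
        simp only [Finset.mem_image, Finset.mem_erase]
        rintro ⟨i, ⟨hi, _⟩, hij⟩
        exact hi (hz hij))
    refine ⟨p, h1, fun i hi => h0 _ ?_⟩
    simp only [Finset.mem_image, Finset.mem_erase]
    exact ⟨i, ⟨hi, Finset.mem_univ _⟩, rfl⟩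
  choose p h1 h0 using h
  refine ⟨∑ i : Fin m, C ((i : ℕ) : ℝ) * p i, fun j => ?_⟩
  rw [map_sum, Finset.sum_eq_single j]
  · simp [h1]
  · intro i _ hij
    simp [h0 i j hij.symm]
  · simp

theorem core (f : σ → MvPolynomial σ ℝ) (d : σ → ℕ) (hd1 : ∀ i, 1 ≤ d i)
    (hd : ∀ i, (f i).totalDegree ≤ d i) {m : ℕ} (z : Fin m → (σ → ℝ)) (hz : Function.Injective z)
    (hop : ∀ j, ∀ U ∈ 𝓝 (z j), (fun x : σ → ℝ => fun i => eval x (f i)) '' U ∈ 𝓝 (0 : σ → ℝ)) :
    ∃ c : ℕ, ∀ s : ℕ, m * (cnt d s).card ≤ (cnt (fun _ : σ => 1) (s + c)).card := by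
  classical
  obtain ⟨l, hl⟩ := exists_distinct z hz
  have hU : ∀ j : Fin m, {x : σ → ℝ | |eval x l - (j : ℕ)| < 1 / 3} ∈ 𝓝 (z j) := by
    intro j
    have hc : Continuous (fun x : σ → ℝ => |eval x l - (j : ℕ)|) :=
      ((MvPolynomial.continuous_eval l).sub continuous_const).abs
    refine (isOpen_lt hc continuous_const).mem_nhds ?_
    show |eval (z j) l - (j : ℕ)| < 1 / 3
    rw [hl j, sub_self, abs_zero]; norm_num
  have hW : (⋂ j : Fin m, (fun x : σ → ℝ => fun i => eval x (f i)) ''
      {x : σ → ℝ | |eval x l - (j : ℕ)| < 1 / 3}) ∈ 𝓝 (0 : σ → ℝ) := by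
    rw [Filter.iInter_mem]
    exact fun j => hop j _ (hU j)
  obtain ⟨r, hr, hball⟩ := Metric.mem_nhds_iff.mp hW
  refine ⟨m * l.totalDegree, fun s => ?_⟩
  let p : {x // x ∈ cnt d s} × Fin m → MvPolynomial σ ℝ := fun q =>
    l ^ (q.2 : ℕ) * ∏ i, f i ^ (q.1.1 i)
  have hdeg : ∀ q, (p q).totalDegree ≤ s + m * l.totalDegree := by
    intro q
    have h1 : (l ^ (q.2 : ℕ)).totalDegree ≤ m * l.totalDegree :=
      (totalDegree_pow _ _).trans (Nat.mul_le_mul_right _ q.2.2.le)
    have h2 : (∏ i, f i ^ (q.1.1 i)).totalDegree ≤ s := by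
      refine (totalDegree_finsetProd _ _).trans ?_
      refine le_trans (Finset.sum_le_sum fun i _ => ?_) ((mem_cnt hd1).mp q.1.2)
      exact (totalDegree_pow _ _).trans (Nat.mul_le_mul_left _ (hd i))
    exact (totalDegree_mul _ _).trans (by omega)
  have hli : LinearIndependent ℝ p := by
    rw [Fintype.linearIndependent_iff]
    intro g hg q0
    let c : Fin m → MvPolynomial σ ℝ := fun k =>
      ∑ a : {x // x ∈ cnt d s}, monomial (Finsupp.equivFunOnFinite.symm a.1) (g (a, k))
    have hbox : ∀ k : Fin m, c k = 0 := by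
      intro k
      refine funext_set (fun _ : σ => Set.Ioo (-r) r) (fun _ => Set.Ioo_infinite (by linarith)) ?_
      intro t ht
      rw [map_zero]
      have htb : t ∈ Metric.ball (0 : σ → ℝ) r := by
        rw [mem_ball_zero_iff, pi_norm_lt_iff hr]
        intro i
        have := ht i (Set.mem_univ i)
        rw [Real.norm_eq_abs, abs_lt]
        exact this
      have htW := hball htb
      rw [Set.mem_iInter] at htW
      choose x hx hxt using htW
      let P : Polynomial ℝ := ∑ k : Fin m, Polynomial.C (eval t (c k)) * Polynomial.X ^ (k : ℕ)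
      have hP : P = 0 := by
        refine Polynomial.eq_zero_of_natDegree_lt_card_of_eval_eq_zero P
          (f := fun j : Fin m => eval (x j) l) ?_ ?_ ?_
        · intro j j' hjj
          have h1 := abs_lt.mp (show |eval (x j) l - (j : ℕ)| < 1 / 3 from hx j)
          have h2 := abs_lt.mp (show |eval (x j') l - (j' : ℕ)| < 1 / 3 from hx j')
          simp only at hjj
          rw [hjj] at h1
          have h3 : ((j : ℕ) : ℝ) < (j' : ℕ) + 1 := by linarith [h1.1, h1.2, h2.1, h2.2]
          have h4 : ((j' : ℕ) : ℝ) < (j : ℕ) + 1 := by linarith [h1.1, h1.2, h2.1, h2.2]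
          have h5 : (j : ℕ) < (j' : ℕ) + 1 := by exact_mod_cast h3
          have h6 : (j' : ℕ) < (j : ℕ) + 1 := by exact_mod_cast h4
          exact Fin.ext (by omega)
        · intro j
          have h1 := congrArg (eval (x j)) hg
          rw [map_zero, map_sum, Fintype.sum_prod_type, Finset.sum_comm] at h1
          rw [Polynomial.eval_finsetSum, ← h1]
          refine Finset.sum_congr rfl fun k _ => ?_
          rw [Polynomial.eval_mul, Polynomial.eval_C, Polynomial.eval_pow, Polynomial.eval_X,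
            map_sum, Finset.sum_mul]
          refine Finset.sum_congr rfl fun a _ => ?_
          have ht2 : ∀ i, eval (x j) (f i) = t i := fun i => congrFun (hxt j) i
          simp only [p, smul_eval, map_mul, map_pow, map_prod, ht2, eval_monomial]
          rw [Finsupp.prod_fintype _ _ (fun _ => pow_zero _)]
          simp only [Finsupp.equivFunOnFinite_symm_apply_apply]
          ring
        · rw [Fintype.card_fin]
          have hm : 0 < m := k.pos
          refine lt_of_le_of_lt (Polynomial.natDegree_sum_le_of_forall_le (n := m - 1) _ _ ?_)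
            (by omega)
          intro k' _
          refine (Polynomial.natDegree_C_mul_X_pow_le _ _).trans ?_
          have := k'.2
          omega
      have h7 := congrArg (fun Q => Polynomial.coeff Q (k : ℕ)) hP
      simp only [P, Polynomial.finsetSum_coeff, Polynomial.coeff_C_mul, Polynomial.coeff_X_pow,
        Polynomial.coeff_zero] at h7
      rw [Finset.sum_eq_single k] at h7
      · simpa using h7
      · intro k' _ hk'
        rw [if_neg, mul_zero]
        exact fun h => hk' (Fin.ext h.symm)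
      · simp
    have h8 := congrArg (coeff (Finsupp.equivFunOnFinite.symm q0.1.1)) (hbox q0.2)
    simp only [c, coeff_sum, coeff_monomial, coeff_zero] at h8
    rw [Finset.sum_eq_single q0.1] at h8
    · simpa using h8
    · intro a _ ha
      rw [if_neg]
      intro h
      exact ha (Subtype.ext (Finsupp.equivFunOnFinite.symm.injective h))
    · simp
  have := card_le_of_li p hli _ hdeg
  rw [Fintype.card_prod, Fintype.card_coe, Fintype.card_fin] at this
  rwa [mul_comm]

/-- **Bezout inequality.**  A square system of real polynomials of degrees at most `d i ≥ 1` has at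
most `∏ d i` zeros at which the polynomial map is open. -/
theorem bezout (f : σ → MvPolynomial σ ℝ) (d : σ → ℕ) (hd1 : ∀ i, 1 ≤ d i)
    (hd : ∀ i, (f i).totalDegree ≤ d i) {m : ℕ} (z : Fin m → (σ → ℝ)) (hz : Function.Injective z)
    (hop : ∀ j, ∀ U ∈ 𝓝 (z j), (fun x : σ → ℝ => fun i => eval x (f i)) '' U ∈ 𝓝 (0 : σ → ℝ)) :
    m ≤ ∏ i, d i := by
  by_contra hcon
  push Not at hcon
  obtain ⟨c, hc⟩ := core f d hd1 hd z hz hop
  set M := ∏ i, d i with hM
  have hM1 : 1 ≤ M := Nat.one_le_iff_ne_zero.mpr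
    (Finset.prod_ne_zero_iff.mpr fun i _ => by have := hd1 i; omega)
  have hstep : ∀ s, (M + 1) * (cnt (fun _ : σ => 1) s).card
      ≤ M * (cnt (fun _ : σ => 1) (s + c)).card := by
    intro s
    calc (M + 1) * (cnt (fun _ : σ => 1) s).card
        ≤ m * (M * (cnt d s).card) := Nat.mul_le_mul hcon (card_one_le d hd1 s)
      _ = M * (m * (cnt d s).card) := by ring
      _ ≤ M * (cnt (fun _ : σ => 1) (s + c)).card := Nat.mul_le_mul_left _ (hc s)
  have hiter : ∀ j : ℕ, (M + 1) ^ j ≤ M ^ j * (cnt (fun _ : σ => 1) (j * c)).card := by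
    intro j
    induction j with
    | zero =>
      have h0 : (0 : σ → ℕ) ∈ cnt (fun _ : σ => 1) (0 * c) := by
        rw [mem_cnt (fun _ => le_rfl)]; simp
      have := Finset.card_pos.mpr ⟨_, h0⟩
      simp only [pow_zero, one_mul]
      omega
    | succ j ih =>
      have h1 := hstep (j * c)
      calc (M + 1) ^ (j + 1) = (M + 1) * (M + 1) ^ j := by ring
        _ ≤ (M + 1) * (M ^ j * (cnt (fun _ : σ => 1) (j * c)).card) := Nat.mul_le_mul_left _ ih
        _ = M ^ j * ((M + 1) * (cnt (fun _ : σ => 1) (j * c)).card) := by ring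
        _ ≤ M ^ j * (M * (cnt (fun _ : σ => 1) (j * c + c)).card) := Nat.mul_le_mul_left _ h1
        _ = M ^ (j + 1) * (cnt (fun _ : σ => 1) ((j + 1) * c)).card := by
          rw [show (j + 1) * c = j * c + c by ring]; ring
  set N := Fintype.card σ with hN
  have hMr : (0 : ℝ) < M := by exact_mod_cast hM1
  have hr1 : (1 : ℝ) < ((M : ℝ) + 1) / M := by
    rw [lt_div_iff₀ hMr]; linarith
  have hlim := tendsto_pow_const_div_const_pow_of_one_lt N hr1
  have hev := (hlim.eventually (gt_mem_nhds (show (0 : ℝ) < 1 / ((c : ℝ) + 1) ^ N by positivity))).and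
    (eventually_ge_atTop 1)
  obtain ⟨j, hj, hj1⟩ := hev.exists
  have h3 : (((M : ℝ) + 1) / M) ^ j ≤ ((j : ℝ) * c + 1) ^ N := by
    rw [div_pow, div_le_iff₀ (by positivity)]
    have h4 : (M + 1) ^ j ≤ M ^ j * (j * c + 1) ^ N :=
      (hiter j).trans (Nat.mul_le_mul_left _ (card_cnt_le _ _))
    have h5 : (((M : ℝ) + 1) ^ j) ≤ (M : ℝ) ^ j * ((j : ℝ) * c + 1) ^ N := by exact_mod_cast h4
    linarith
  have hj1' : (1 : ℝ) ≤ j := by exact_mod_cast hj1
  have h6 : ((j : ℝ) * c + 1) ^ N ≤ ((c : ℝ) + 1) ^ N * (j : ℝ) ^ N := by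
    rw [← mul_pow]
    refine pow_le_pow_left₀ (by positivity) ?_ N
    nlinarith
  rw [div_lt_div_iff₀ (by positivity) (by positivity)] at hj
  have : (j : ℝ) ^ N * ((c : ℝ) + 1) ^ N < (((M : ℝ) + 1) / M) ^ j := by linarith
  linarith

end Pool.Agent.Helper59.BZ
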