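import Mathlib
import Pool.Prelude.Def_F_d420a142

/-!
# The field of finitely many point charges
(The lemmas of this file are copied from the library module `Pool.Graph.R_seed8.Helper710.EqLemD`.)
-/

set_option autoImplicit false

open N62f3cee0
open scoped Gradient Topology

namespace Pool.Agent.Helper59.BZ

/-- three dimensional Euclidean space -/
abbrev E3 := EuclideanSpace ℝ (Fin 3)

/-- `x` is a non-degenerate critical point of `F` -/
def Good (F : E3 → ℝ) (x : E3) : Prop :=
  fderiv ℝ F x = 0 ∧ ∀ v, fderiv ℝ (fderiv ℝ F) x v = 0 → v = 0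

/-- field of the charge `j` -/
noncomputable def kk {n : ℕ} (a : Fin n → E3) (j : Fin n) (x : E3) : E3 :=
  ((dist x (a j)) ^ 3)⁻¹ • (a j - x)

/-- the Riesz map as a linear map -/
noncomputable def LK : E3 →L[ℝ] (E3 →L[ℝ] ℝ) :=
  LinearMap.toContinuousLinearMap
    { toFun := fun v => innerSL ℝ v
      map_add' := by
        intro u v
        ext w
        simp
      map_smul' := by
        intro c v
        ext w
        simp }

theorem LK_apply (u v : E3) : LK u v = inner ℝ u v := rfl

theorem LK_inj {u : E3} (h : LK u = 0) : u = 0 := by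
  have : LK u u = 0 := by rw [h]; rfl
  rw [LK_apply, inner_self_eq_zero] at this
  exact this

theorem hasFDerivAt_inv_dist (a x : E3) (h : x ≠ a) :
    HasFDerivAt (fun y : E3 => (dist y a)⁻¹) (LK (((dist x a) ^ 3)⁻¹ • (a - x))) x := by
  have h1 : HasFDerivAt (fun y : E3 => y - a) (ContinuousLinearMap.id ℝ E3) x :=
    (hasFDerivAt_id x).sub_const a
  have h2 := h1.norm_sq
  have hn : ‖x - a‖ ≠ 0 := by rw [norm_ne_zero_iff]; exact sub_ne_zero.2 h
  have hpos : 0 < ‖x - a‖ ^ 2 := by positivity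
  have h3 : HasDerivAt (fun y : ℝ => (Real.sqrt y)⁻¹)
      (-(1 / (2 * Real.sqrt (‖x - a‖ ^ 2))) / (Real.sqrt (‖x - a‖ ^ 2)) ^ 2) (‖x - a‖ ^ 2) :=
    (Real.hasDerivAt_sqrt hpos.ne').inv (by positivity)
  have h4 := HasDerivAt.comp_hasFDerivAt x h3 h2
  have e1 : ((fun y : ℝ => (Real.sqrt y)⁻¹) ∘ fun y : E3 => ‖y - a‖ ^ 2) =
      fun y : E3 => (dist y a)⁻¹ := by
    funext y
    simp only [Function.comp_apply]
    rw [Real.sqrt_sq (norm_nonneg _), dist_eq_norm]
  rw [e1] at h4
  refine h4.congr_fderiv ?_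
  ext w
  rw [Real.sqrt_sq (norm_nonneg _), dist_eq_norm]
  simp only [smul_apply, ContinuousLinearMap.comp_apply,
    ContinuousLinearMap.id_apply, smul_eq_mul, LK_apply, inner_smul_left, innerSL_apply_apply]
  have e2 : inner ℝ (a - x) w = - inner ℝ (x - a) w := by rw [← inner_neg_left, neg_sub]
  rw [e2]
  simp only [conj_trivial]
  field_simp
  simp

theorem hasFDerivAt_potential {n : ℕ} (q : Fin n → ℝ) (a : Fin n → E3) (x : E3)
    (hx : x ∉ Set.range a) :
    HasFDerivAt (potential q a) (LK (∑ j, q j • kk a j x)) x := by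
  have h1 : ∀ j ∈ (Finset.univ : Finset (Fin n)),
      HasFDerivAt (fun y : E3 => q j / dist y (a j)) (LK (q j • kk a j x)) x := by
    intro j _
    have hne : x ≠ a j := fun h => hx ⟨j, h.symm⟩
    have h2 := (hasFDerivAt_inv_dist (a j) x hne).const_mul (q j)
    rw [map_smul]
    have e : (fun y : E3 => q j / dist y (a j)) = fun y => q j * (dist y (a j))⁻¹ := by
      funext y
      rw [div_eq_mul_inv]
    rw [e]
    exact h2
  have h3 := HasFDerivAt.fun_sum h1
  rw [map_sum]
  exact h3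

theorem isOpen_compl {n : ℕ} (a : Fin n → E3) : IsOpen (Set.range a)ᶜ :=
  (Set.finite_range a).isClosed.isOpen_compl

theorem kk_contDiffAt {n : ℕ} (a : Fin n → E3) (j : Fin n) (x : E3) (hx : x ∉ Set.range a) :
    ContDiffAt ℝ 1 (kk a j) x := by
  have hne : x ≠ a j := fun h => hx ⟨j, h.symm⟩
  have h1 : ContDiffAt ℝ 1 (fun y : E3 => a j - y) x := contDiffAt_const.sub contDiffAt_id
  have h2 : ContDiffAt ℝ 1 (fun y : E3 => dist y (a j)) x :=
    ContDiffAt.dist ℝ contDiffAt_id contDiffAt_const hne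
  have h3 : ContDiffAt ℝ 1 (fun y : E3 => ((dist y (a j)) ^ 3)⁻¹) x :=
    (h2.pow 3).inv (pow_ne_zero 3 (dist_ne_zero.2 hne))
  exact h3.smul h1

theorem good_potential_iff {n : ℕ} (q : Fin n → ℝ) (a : Fin n → E3) (x : E3)
    (hx : x ∉ Set.range a) : Good (potential q a) x ↔ (∑ j, q j • kk a j x = 0 ∧
      ∀ v, fderiv ℝ (fun x => ∑ j, q j • kk a j x) x v = 0 → v = 0) := by
  have hd : DifferentiableAt ℝ (fun x => ∑ j, q j • kk a j x) x := by
    have : ∀ j ∈ (Finset.univ : Finset (Fin n)), DifferentiableAt ℝ (fun y => q j • kk a j y) x :=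
      fun j _ => ((kk_contDiffAt a j x hx).differentiableAt (by simp)).const_smul (q j)
    exact DifferentiableAt.fun_sum this
  have h1 : fderiv ℝ (potential q a) x = LK (∑ j, q j • kk a j x) :=
    (hasFDerivAt_potential q a x hx).fderiv
  have h2 : fderiv ℝ (potential q a) =ᶠ[nhds x] fun y => LK (∑ j, q j • kk a j y) := by
    filter_upwards [(isOpen_compl a).mem_nhds hx] with y hy
    exact (hasFDerivAt_potential q a y hy).fderiv
  have h3 : fderiv ℝ (fderiv ℝ (potential q a)) x =
      LK.comp (fderiv ℝ (fun x => ∑ j, q j • kk a j x) x) := by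
    rw [h2.fderiv_eq]
    exact (LK.hasFDerivAt.comp x hd.hasFDerivAt).fderiv
  unfold Good
  rw [h1, h3]
  constructor
  · rintro ⟨ha, hb⟩
    refine ⟨LK_inj ha, fun v hv => hb v ?_⟩
    rw [ContinuousLinearMap.comp_apply, hv, map_zero]
  · rintro ⟨ha, hb⟩
    refine ⟨by rw [ha, map_zero], fun v hv => hb v ?_⟩
    rw [ContinuousLinearMap.comp_apply] at hv
    exact LK_inj hv

theorem gradient_potential {n : ℕ} (q : Fin n → ℝ) (a : Fin n → E3) (x : E3)
    (hx : x ∉ Set.range a) : gradient (potential q a) x = ∑ j, q j • kk a j x := by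
  unfold gradient
  rw [(hasFDerivAt_potential q a x hx).fderiv]
  have : LK (∑ j, q j • kk a j x) = InnerProductSpace.toDual ℝ E3 (∑ j, q j • kk a j x) := by
    ext w
    rw [LK_apply, InnerProductSpace.toDual_apply_apply]
  rw [this, LinearIsometryEquiv.symm_apply_apply]


end Pool.Agent.Helper59.BZ
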