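import Pool.Agent.Helper59.BZ.Bezout
import Pool.Agent.Helper59.BZ.Field

/-!
# The number of equilibria of point charges, summed over all signs of the charges
-/

set_option autoImplicit false

namespace Pool.Agent.Helper59.BZ
open MvPolynomial Filter Topology N62f3cee0
open scoped Gradient

variable {n : ℕ}

/-- The charges `ε_j q_j`. -/
def signed (e : Fin n → ℤˣ) (q : Fin n → ℝ) : Fin n → ℝ := fun j => (((e j : ℤˣ) : ℤ) : ℝ) * q j

/-- The non-degenerate equilibria. -/
def ndeq (q : Fin n → ℝ) (a : Fin n → E3) : Set E3 :=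
  {x | x ∈ equilibria q a ∧ HasNondegenerateHessianAt (potential q a) x}

/-- The polynomial system. -/
noncomputable def sys (q : Fin n → ℝ) (a : Fin n → E3) : Fin n ⊕ Fin 3 → MvPolynomial (Fin n ⊕ Fin 3) ℝ
  | Sum.inl j => X (Sum.inl j) ^ 2 - ∑ i : Fin 3, (X (Sum.inr i) - C (a j i)) ^ 2
  | Sum.inr i => ∑ j : Fin n, C (q j) * (C (a j i) - X (Sum.inr i)) *
      ∏ k ∈ Finset.univ.erase j, X (Sum.inl k) ^ 3

/-- The degrees. -/
def dg (n : ℕ) : Fin n ⊕ Fin 3 → ℕ
  | Sum.inl _ => 2
  | Sum.inr _ => 3 * n - 2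

theorem dg_pos (hn : 1 ≤ n) (s : Fin n ⊕ Fin 3) : 1 ≤ dg n s := by
  rcases s with j | i
  · simp [dg]
  · simp only [dg]; omega

theorem dg_prod : ∏ s, dg n s = 2 ^ n * (3 * n - 2) ^ 3 := by
  rw [Fintype.prod_sum_type]
  simp [dg]

theorem sys_deg (hn : 1 ≤ n) (q : Fin n → ℝ) (a : Fin n → E3) (s : Fin n ⊕ Fin 3) :
    (sys q a s).totalDegree ≤ dg n s := by
  rcases s with j | i
  · simp only [sys, dg]
    refine (totalDegree_sub _ _).trans (max_le ?_ ?_)
    · exact (totalDegree_pow _ _).trans (by simp)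
    · refine totalDegree_finsetSum_le fun i _ => ?_
      refine (totalDegree_pow _ _).trans ?_
      have : (X (Sum.inr i) - C (a j i) : MvPolynomial (Fin n ⊕ Fin 3) ℝ).totalDegree ≤ 1 :=
        (totalDegree_sub _ _).trans (by simp)
      omega
  · simp only [sys, dg]
    refine totalDegree_finsetSum_le fun j _ => ?_
    have h1 : (C (a j i) - X (Sum.inr i) : MvPolynomial (Fin n ⊕ Fin 3) ℝ).totalDegree ≤ 1 :=
      (totalDegree_sub _ _).trans (by simp)
    have h2 : (C (q j) * (C (a j i) - X (Sum.inr i)) :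
        MvPolynomial (Fin n ⊕ Fin 3) ℝ).totalDegree ≤ 1 :=
      (totalDegree_mul _ _).trans (by simpa using h1)
    have h3 : (∏ k ∈ Finset.univ.erase j, X (Sum.inl k) ^ 3 :
        MvPolynomial (Fin n ⊕ Fin 3) ℝ).totalDegree ≤ 3 * (n - 1) := by
      refine (totalDegree_finsetProd _ _).trans ?_
      refine (Finset.sum_le_card_nsmul _ _ 3 fun k _ => ?_).trans ?_
      · exact (totalDegree_pow _ _).trans (by simp)
      · rw [Finset.card_erase_of_mem (Finset.mem_univ _), Finset.card_univ, Fintype.card_fin,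
          smul_eq_mul, mul_comm]
    refine (totalDegree_mul _ _).trans ?_
    omega

/-- The polynomial map. -/
noncomputable def FF (q : Fin n → ℝ) (a : Fin n → E3) (v : Fin n ⊕ Fin 3 → ℝ) : Fin n ⊕ Fin 3 → ℝ :=
  fun s => eval v (sys q a s)

theorem FF_inl (q : Fin n → ℝ) (a : Fin n → E3) (v : Fin n ⊕ Fin 3 → ℝ) (j : Fin n) :
    FF q a v (Sum.inl j) = v (Sum.inl j) ^ 2 - ∑ i : Fin 3, (v (Sum.inr i) - a j i) ^ 2 := by
  simp [FF, sys]

theorem FF_inr (q : Fin n → ℝ) (a : Fin n → E3) (v : Fin n ⊕ Fin 3 → ℝ) (i : Fin 3) :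
    FF q a v (Sum.inr i) = ∑ j : Fin n, q j * (a j i - v (Sum.inr i)) *
      ∏ k ∈ Finset.univ.erase j, v (Sum.inl k) ^ 3 := by
  simp [FF, sys]

theorem FF_contDiff (q : Fin n → ℝ) (a : Fin n → E3) : ContDiff ℝ 1 (FF q a) := by
  rw [contDiff_pi]
  intro s
  rcases s with j | i
  · simp only [FF_inl]
    fun_prop
  · simp only [FF_inr]
    refine ContDiff.sum fun j _ => ?_
    refine ContDiff.mul (by fun_prop) ?_
    refine contDiff_prod fun k _ => ?_
    fun_prop

/-- The point `(ε_j |x - a_j|, x)`. -/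
noncomputable def pt (a : Fin n → E3) (e : Fin n → ℤˣ) (x : E3) : Fin n ⊕ Fin 3 → ℝ
  | Sum.inl j => (((e j : ℤˣ) : ℤ) : ℝ) * dist x (a j)
  | Sum.inr i => x i

theorem unit_sq (u : ℤˣ) : (((u : ℤˣ) : ℤ) : ℝ) ^ 2 = 1 := by
  rcases Int.units_eq_one_or u with rfl | rfl <;> simp

theorem unit_ne (u : ℤˣ) : (((u : ℤˣ) : ℤ) : ℝ) ≠ 0 := by
  intro h
  have := unit_sq u
  rw [h] at this
  norm_num at this

theorem dist_sq' (x y : E3) : dist x y ^ 2 = ∑ i : Fin 3, (x i - y i) ^ 2 := by
  rw [EuclideanSpace.dist_eq, Real.sq_sqrt (Finset.sum_nonneg fun i _ => by positivity)]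
  refine Finset.sum_congr rfl fun i _ => ?_
  rw [Real.dist_eq, sq_abs]

/-- The first equations hold on the sheet `ε`. -/
theorem FF_pt_inl (q : Fin n → ℝ) (a : Fin n → E3) (e : Fin n → ℤˣ) (x : E3) (j : Fin n) :
    FF q a (pt a e x) (Sum.inl j) = 0 := by
  rw [FF_inl]
  simp only [pt]
  rw [mul_pow, unit_sq, one_mul, dist_sq']
  simp

/-- The field of the charges `ε q`. -/
noncomputable def KK (q : Fin n → ℝ) (a : Fin n → E3) (e : Fin n → ℤˣ) (x : E3) : E3 :=
  ∑ j, signed e q j • kk a j x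

/-- The common factor. -/
noncomputable def cc (a : Fin n → E3) (e : Fin n → ℤˣ) (x : E3) : ℝ :=
  ∏ k, ((((e k : ℤˣ) : ℤ) : ℝ) * dist x (a k)) ^ 3

theorem FF_pt_inr (q : Fin n → ℝ) (a : Fin n → E3) (e : Fin n → ℤˣ) (x : E3)
    (hx : x ∉ Set.range a) (i : Fin 3) :
    FF q a (pt a e x) (Sum.inr i) = cc a e x * KK q a e x i := by
  rw [FF_inr]
  have h1 : KK q a e x i = ∑ j, signed e q j * (((dist x (a j)) ^ 3)⁻¹ * (a j i - x i)) := by
    simp [KK, kk]
  rw [h1, Finset.mul_sum]
  refine Finset.sum_congr rfl fun j _ => ?_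
  have hd : dist x (a j) ≠ 0 := by
    rw [dist_ne_zero]
    rintro rfl
    exact hx ⟨j, rfl⟩
  have h2 : cc a e x = ((((e j : ℤˣ) : ℤ) : ℝ) * dist x (a j)) ^ 3 *
      ∏ k ∈ Finset.univ.erase j, ((((e k : ℤˣ) : ℤ) : ℝ) * dist x (a k)) ^ 3 := by
    rw [cc, ← Finset.mul_prod_erase _ _ (Finset.mem_univ j)]
  rw [h2]
  simp only [pt, signed]
  have h3 := unit_sq (e j)
  set u := (((e j : ℤˣ) : ℤ) : ℝ)
  set D := dist x (a j)
  set P := ∏ k ∈ Finset.univ.erase j, ((((e k : ℤˣ) : ℤ) : ℝ) * dist x (a k)) ^ 3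
  have h4 : (u * D) ^ 3 * P * (u * q j * ((D ^ 3)⁻¹ * (a j i - x i)))
      = (u ^ 2) ^ 2 * (D ^ 3 * (D ^ 3)⁻¹) * (q j * (a j i - x i) * P) := by ring
  rw [h4, h3, mul_inv_cancel₀ (pow_ne_zero 3 hd)]
  ring

theorem KK_zero (q : Fin n → ℝ) (a : Fin n → E3) (e : Fin n → ℤˣ) (x : E3)
    (hx : x ∈ ndeq (signed e q) a) : KK q a e x = 0 := by
  have := hx.1.2
  rwa [gradient_potential _ a x hx.1.1] at this

theorem KK_inj (q : Fin n → ℝ) (a : Fin n → E3) (e : Fin n → ℤˣ) (x : E3)
    (hx : x ∈ ndeq (signed e q) a) : ∀ v, fderiv ℝ (KK q a e) x v = 0 → v = 0 := by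
  have hxa := hx.1.1
  have hg : Good (potential (signed e q) a) x := by
    constructor
    · rw [(hasFDerivAt_potential (signed e q) a x hxa).fderiv]
      have := KK_zero q a e x hx
      unfold KK at this
      rw [this, map_zero]
    · intro v hv
      by_contra hne
      obtain ⟨w, hw⟩ := hx.2 v hne
      apply hw
      rw [iteratedFDeriv_two_apply]
      simp [hv]
  exact ((good_potential_iff (signed e q) a x hxa).1 hg).2

theorem KK_diff (q : Fin n → ℝ) (a : Fin n → E3) (e : Fin n → ℤˣ) (x : E3)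
    (hx : x ∉ Set.range a) : DifferentiableAt ℝ (KK q a e) x := by
  have : ∀ j ∈ (Finset.univ : Finset (Fin n)),
      DifferentiableAt ℝ (fun y => signed e q j • kk a j y) x :=
    fun j _ => ((kk_contDiffAt a j x hx).differentiableAt (by simp)).const_smul (signed e q j)
  exact DifferentiableAt.fun_sum this

theorem dist_cd (a : Fin n → E3) (x : E3) (hx : x ∉ Set.range a) (j : Fin n) :
    ContDiffAt ℝ 1 (fun y : E3 => dist y (a j)) x :=
  ContDiffAt.dist ℝ contDiffAt_id contDiffAt_const (fun h => hx ⟨j, h.symm⟩)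

theorem cc_diff (a : Fin n → E3) (e : Fin n → ℤˣ) (x : E3)
    (hx : x ∉ Set.range a) : DifferentiableAt ℝ (cc a e) x := by
  refine ContDiffAt.differentiableAt (n := 1) ?_ (by simp)
  unfold cc
  refine contDiffAt_prod fun k _ => ?_
  exact (contDiffAt_const.mul (dist_cd a x hx k)).pow 3

theorem cc_ne (a : Fin n → E3) (e : Fin n → ℤˣ) (x : E3)
    (hx : x ∉ Set.range a) : cc a e x ≠ 0 := by
  refine Finset.prod_ne_zero_iff.mpr fun k _ => pow_ne_zero 3 (mul_ne_zero (unit_ne _) ?_)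
  rw [dist_ne_zero]
  rintro rfl
  exact hx ⟨k, rfl⟩

theorem pt_diff (a : Fin n → E3) (e : Fin n → ℤˣ) (x : E3)
    (hx : x ∉ Set.range a) : DifferentiableAt ℝ (pt a e) x := by
  rw [differentiableAt_pi]
  intro s
  rcases s with j | i
  · exact ((dist_cd a x hx j).differentiableAt (by simp)).const_mul _
  · exact (EuclideanSpace.proj (𝕜 := ℝ) i).differentiableAt

theorem FF_pt_zero (q : Fin n → ℝ) (a : Fin n → E3) (e : Fin n → ℤˣ) (x : E3)
    (hx : x ∈ ndeq (signed e q) a) : FF q a (pt a e x) = 0 := by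
  funext s
  rcases s with j | i
  · exact FF_pt_inl q a e x j
  · rw [FF_pt_inr q a e x hx.1.1, KK_zero q a e x hx]
    simp

theorem open_at (q : Fin n → ℝ) (a : Fin n → E3) (e : Fin n → ℤˣ) (x : E3)
    (hx : x ∈ ndeq (signed e q) a) (U : Set (Fin n ⊕ Fin 3 → ℝ)) (hU : U ∈ 𝓝 (pt a e x)) :
    FF q a '' U ∈ 𝓝 (0 : Fin n ⊕ Fin 3 → ℝ) := by
  have hxa := hx.1.1
  set F' := fderiv ℝ (FF q a) (pt a e x) with hF'
  have hst : HasStrictFDerivAt (FF q a) F' (pt a e x) :=
    (FF_contDiff q a).contDiffAt.hasStrictFDerivAt (by simp)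
  have hinj : ∀ w, F' w = 0 → w = 0 := by
    intro w hw
    set ξ : E3 := WithLp.toLp 2 (fun i => w (Sum.inr i)) with hξ
    have hγ := (pt_diff a e x hxa).hasFDerivAt
    set γ' := fderiv ℝ (pt a e) x with hγ'
    have hcomp : HasFDerivAt (fun y => FF q a (pt a e y)) (F'.comp γ') x :=
      hst.hasFDerivAt.comp x hγ
    -- the `inr` components of `γ' ξ`
    have h1 : ∀ i, γ' ξ (Sum.inr i) = w (Sum.inr i) := by
      intro i
      have ha := (hasFDerivAt_pi'.mp hγ) (Sum.inr i)
      have hb : HasFDerivAt (fun y : E3 => pt a e y (Sum.inr i))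
          (EuclideanSpace.proj (𝕜 := ℝ) i : E3 →L[ℝ] ℝ) x :=
        (EuclideanSpace.proj (𝕜 := ℝ) i).hasFDerivAt
      have hc := congrArg (fun L : E3 →L[ℝ] ℝ => L ξ) (ha.unique hb)
      simpa [hξ] using hc
    -- the difference
    have h2 : γ' ξ = w := by
      have hδ : ∀ i, (γ' ξ - w) (Sum.inr i) = 0 := fun i => by simp [h1 i]
      funext s
      rcases s with j | i
      · have ha : F' (γ' ξ - w) (Sum.inl j) = 0 := by
          have hb := (hasFDerivAt_pi'.mp hcomp) (Sum.inl j)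
          have hc : HasFDerivAt (fun y : E3 => FF q a (pt a e y) (Sum.inl j))
              (0 : E3 →L[ℝ] ℝ) x := by
            have : (fun y : E3 => FF q a (pt a e y) (Sum.inl j)) = fun _ => 0 := by
              funext y; exact FF_pt_inl q a e y j
            rw [this]
            exact hasFDerivAt_const _ _
          have hd := congrArg (fun L : E3 →L[ℝ] ℝ => L ξ) (hb.unique hc)
          have he : F' (γ' ξ) (Sum.inl j) = 0 := by simpa using hd
          rw [map_sub, hw, sub_zero, he]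
        set δ := γ' ξ - w with hδdef
        have hline : HasDerivAt (fun t : ℝ => pt a e x + t • δ) δ 0 := by
          have := ((hasDerivAt_id (0 : ℝ)).smul_const δ).const_add (pt a e x)
          simpa using this
        have hF0 : HasFDerivAt (FF q a) F' (pt a e x + (0 : ℝ) • δ) := by
          simpa using hst.hasFDerivAt
        have hg := hF0.comp_hasDerivAt (0 : ℝ) hline
        have hg2 := (hasDerivAt_pi.mp hg) (Sum.inl j)
        have hk : HasDerivAt (fun t : ℝ => (FF q a ∘ fun t : ℝ => pt a e x + t • δ) t (Sum.inl j))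
            (2 * pt a e x (Sum.inl j) * δ (Sum.inl j)) 0 := by
          have e1 : (fun t : ℝ => (FF q a ∘ fun t : ℝ => pt a e x + t • δ) t (Sum.inl j))
              = fun t : ℝ => (pt a e x (Sum.inl j) + t * δ (Sum.inl j)) ^ 2
                - ∑ i : Fin 3, (pt a e x (Sum.inr i) - a j i) ^ 2 := by
            funext t
            simp only [Function.comp_apply, FF_inl, Pi.add_apply, Pi.smul_apply, smul_eq_mul, hδ,
              mul_zero, add_zero]
          rw [e1]
          have h5 : HasDerivAt (fun t : ℝ => pt a e x (Sum.inl j) + t * δ (Sum.inl j))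
              (δ (Sum.inl j)) 0 := by
            have := ((hasDerivAt_id (0 : ℝ)).mul_const (δ (Sum.inl j))).const_add
              (pt a e x (Sum.inl j))
            simpa using this
          have h6 := (h5.pow 2).sub_const (∑ i : Fin 3, (pt a e x (Sum.inr i) - a j i) ^ 2)
          have h6' : (((2 : ℕ) : ℝ) * (pt a e x (Sum.inl j) + 0 * δ (Sum.inl j)) ^ (2 - 1)
              * δ (Sum.inl j)) = 2 * pt a e x (Sum.inl j) * δ (Sum.inl j) := by
            rw [zero_mul, add_zero]
            norm_num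
          rw [← h6']
          exact h6
        have h7 := hg2.unique hk
        rw [ha] at h7
        have h8 : pt a e x (Sum.inl j) ≠ 0 := by
          refine mul_ne_zero (unit_ne _) ?_
          rw [dist_ne_zero]
          rintro h
          exact hxa ⟨j, h.symm⟩
        have h9 : δ (Sum.inl j) = 0 := by
          rcases mul_eq_zero.mp h7.symm with h | h
          · exact absurd h (mul_ne_zero two_ne_zero h8)
          · exact h
        exact sub_eq_zero.mp h9
      · exact h1 i
    -- the derivative of the field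
    have h3 : fderiv ℝ (KK q a e) x ξ = 0 := by
      ext i
      have hb := (hasFDerivAt_pi'.mp hcomp) (Sum.inr i)
      have hK := (KK_diff q a e x hxa).hasFDerivAt
      have hKi : HasFDerivAt (fun y => KK q a e y i)
          ((EuclideanSpace.proj (𝕜 := ℝ) i : E3 →L[ℝ] ℝ).comp (fderiv ℝ (KK q a e) x)) x :=
        (EuclideanSpace.proj (𝕜 := ℝ) i : E3 →L[ℝ] ℝ).hasFDerivAt.comp x hK
      have hc := (cc_diff a e x hxa).hasFDerivAt.mul hKi
      have hev : (fun y : E3 => FF q a (pt a e y) (Sum.inr i))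
          =ᶠ[𝓝 x] fun y => cc a e y * KK q a e y i := by
        filter_upwards [(isOpen_compl a).mem_nhds hxa] with y hy
        exact FF_pt_inr q a e y hy i
      have hd := (hb.congr_of_eventuallyEq hev.symm).unique hc
      have he := congrArg (fun L : E3 →L[ℝ] ℝ => L ξ) hd
      have h0 : F' (γ' ξ) (Sum.inr i) = 0 := by rw [h2, hw]; rfl
      have hK0 : KK q a e x i = 0 := by rw [KK_zero q a e x hx]; rfl
      simp [h0, hK0] at he
      rcases he with h | h
      · exact absurd h (cc_ne a e x hxa)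
      · simpa using h
    have h4 : ξ = 0 := KK_inj q a e x hx ξ h3
    rw [← h2, h4, map_zero]
  have hsurj : F'.range = ⊤ := by
    have : Function.Surjective F' := by
      have h := (LinearMap.injective_iff_surjective (f := (F' : (Fin n ⊕ Fin 3 → ℝ) →ₗ[ℝ] _))).mp
        ((injective_iff_map_eq_zero _).mpr hinj)
      exact h
    exact LinearMap.range_eq_top.mpr this
  have hmap := hst.map_nhds_eq_of_surj hsurj
  rw [FF_pt_zero q a e x hx] at hmap
  rw [← hmap]
  exact Filter.image_mem_map hU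

/-- Any finite set of pairs (signs, non-degenerate equilibrium) is bounded by the Bezout number. -/
theorem pairs_bound (hn : 1 ≤ n) (q : Fin n → ℝ) (a : Fin n → E3)
    (S : Finset (Σ _ : (Fin n → ℤˣ), E3)) (hS : ∀ p ∈ S, p.2 ∈ ndeq (signed p.1 q) a) :
    S.card ≤ 2 ^ n * (3 * n - 2) ^ 3 := by
  classical
  rw [← dg_prod]
  let z : Fin S.card → (Fin n ⊕ Fin 3 → ℝ) := fun j =>
    pt a (S.equivFin.symm j).1.1 (S.equivFin.symm j).1.2
  refine bezout (sys q a) (dg n) (dg_pos hn) (sys_deg hn q a) z ?_ ?_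
  · intro j j' h
    have hp := hS _ (S.equivFin.symm j).2
    have hx : (S.equivFin.symm j).1.2 = (S.equivFin.symm j').1.2 := by
      ext i
      exact congrFun h (Sum.inr i)
    have he : (S.equivFin.symm j).1.1 = (S.equivFin.symm j').1.1 := by
      funext k
      have h1 : (((((S.equivFin.symm j).1.1 k : ℤˣ) : ℤ) : ℝ)) * dist (S.equivFin.symm j).1.2 (a k)
          = (((((S.equivFin.symm j').1.1 k : ℤˣ) : ℤ) : ℝ)) * dist (S.equivFin.symm j').1.2 (a k) :=
        congrFun h (Sum.inl k)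
      rw [← hx] at h1
      have hd : dist (S.equivFin.symm j).1.2 (a k) ≠ 0 := by
        rw [dist_ne_zero]
        intro h2
        exact hp.1.1 ⟨k, h2.symm⟩
      have h3 := mul_right_cancel₀ hd h1
      have h4 : (((S.equivFin.symm j).1.1 k : ℤˣ) : ℤ) = (((S.equivFin.symm j').1.1 k : ℤˣ) : ℤ) := by
        exact_mod_cast h3
      exact Units.ext h4
    have : (S.equivFin.symm j).1 = (S.equivFin.symm j').1 := Sigma.ext he (heq_of_eq hx)
    exact S.equivFin.symm.injective (Subtype.ext this)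
  · intro j U hU
    exact open_at q a _ _ (hS _ (S.equivFin.symm j).2) U hU

theorem ndeq_finite (hn : 1 ≤ n) (q : Fin n → ℝ) (a : Fin n → E3) (e : Fin n → ℤˣ) :
    (ndeq (signed e q) a).Finite := by
  by_contra hinf
  obtain ⟨t, ht, htc⟩ := Set.Infinite.exists_subset_card_eq hinf (2 ^ n * (3 * n - 2) ^ 3 + 1)
  have := pairs_bound hn q a (t.map ⟨fun x => (⟨e, x⟩ : Σ _ : (Fin n → ℤˣ), E3), by
    intro x y h
    simpa using h⟩) (by
      intro p hp
      rw [Finset.mem_map] at hp
      obtain ⟨x, hx, rfl⟩ := hp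
      exact ht hx)
  rw [Finset.card_map, htc] at this
  omega

theorem sum_bound (hn : 1 ≤ n) (q : Fin n → ℝ) (a : Fin n → E3) :
    ∑ e : Fin n → ℤˣ, (ndeq (signed e q) a).ncard ≤ 2 ^ n * (3 * n - 2) ^ 3 := by
  classical
  have h := pairs_bound hn q a
    (Finset.univ.sigma (fun e => (ndeq_finite hn q a e).toFinset)) (by
      intro p hp
      rw [Finset.mem_sigma] at hp
      simpa using hp.2)
  rw [Finset.card_sigma] at h
  refine le_trans (le_of_eq ?_) h
  refine Finset.sum_congr rfl fun e _ => ?_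
  rw [Set.ncard_eq_toFinset_card _ (ndeq_finite hn q a e)]

theorem markov (hn : 1 ≤ n) (q : Fin n → ℝ) (a : Fin n → E3) (K : ℕ) :
    K * (Finset.univ.filter (fun e : Fin n → ℤˣ =>
      K * (3 * n - 2) ^ 3 < (ndeq (signed e q) a).ncard)).card ≤ 2 ^ n := by
  classical
  have h1 := sum_bound hn q a
  have hpos : 0 < (3 * n - 2) ^ 3 := Nat.pow_pos (by omega)
  have h2 : (Finset.univ.filter (fun e : Fin n → ℤˣ =>
      K * (3 * n - 2) ^ 3 < (ndeq (signed e q) a).ncard)).card * (K * (3 * n - 2) ^ 3)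
      ≤ ∑ e : Fin n → ℤˣ, (ndeq (signed e q) a).ncard := by
    rw [← smul_eq_mul]
    refine (Finset.card_nsmul_le_sum _ (fun e => (ndeq (signed e q) a).ncard) _ ?_).trans
      (Finset.sum_le_sum_of_subset (Finset.filter_subset _ _))
    intro e he
    exact (Finset.mem_filter.mp he).2.le
  have h3 := h2.trans h1
  have h4 : (K * (Finset.univ.filter (fun e : Fin n → ℤˣ =>
      K * (3 * n - 2) ^ 3 < (ndeq (signed e q) a).ncard)).card) * (3 * n - 2) ^ 3
      ≤ 2 ^ n * (3 * n - 2) ^ 3 := by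
    refine le_trans (le_of_eq ?_) h3
    ring
  exact Nat.le_of_mul_le_mul_right h4 hpos

theorem equilibria_neg (q : Fin n → ℝ) (a : Fin n → E3) :
    ndeq (signed (fun _ => (-1 : ℤˣ)) q) a = ndeq (signed (fun _ => (1 : ℤˣ)) q) a := by
  have hV : potential (signed (fun _ => (-1 : ℤˣ)) q) a = fun x => -(potential (signed (fun _ => (1 : ℤˣ)) q) a x) := by
    funext x
    simp only [potential, signed, ← Finset.sum_neg_distrib]
    refine Finset.sum_congr rfl fun j _ => ?_
    simp [neg_div]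
  ext x
  simp only [ndeq, equilibria, Set.mem_ofPred_eq]
  rw [hV]
  have hg : gradient (fun x => -(potential (signed (fun _ => (1 : ℤˣ)) q) a x)) x
      = - gradient (potential (signed (fun _ => (1 : ℤˣ)) q) a) x := by
    unfold gradient
    rw [fderiv_fun_neg, map_neg]
  have hh : HasNondegenerateHessianAt (fun x => -(potential (signed (fun _ => (1 : ℤˣ)) q) a x)) x
      ↔ HasNondegenerateHessianAt (potential (signed (fun _ => (1 : ℤˣ)) q) a) x := by
    unfold HasNondegenerateHessianAt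
    have e1 : ∀ v w, iteratedFDeriv ℝ 2 (fun x => -(potential (signed (fun _ => (1 : ℤˣ)) q) a x)) x ![v, w]
        = - iteratedFDeriv ℝ 2 (potential (signed (fun _ => (1 : ℤˣ)) q) a) x ![v, w] := by
      intro v w
      show iteratedFDeriv ℝ 2 (-(potential (signed (fun _ => (1 : ℤˣ)) q) a)) x ![v, w] = _
      rw [iteratedFDeriv_neg_apply]
      rfl
    simp only [e1, neg_ne_zero]
  rw [hg, hh, neg_eq_zero]

theorem individual (hn : 1 ≤ n) (q : Fin n → ℝ) (a : Fin n → E3) :
    (ndeq q a).Finite ∧ (ndeq q a).ncard ≤ 2 ^ (n - 1) * (3 * n - 2) ^ 3 := by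
  classical
  have hq : signed (fun _ => (1 : ℤˣ)) q = q := by
    funext j; simp [signed]
  have hfin := ndeq_finite hn q a (fun _ => (1 : ℤˣ))
  rw [hq] at hfin
  refine ⟨hfin, ?_⟩
  have h1 := sum_bound hn q a
  have hne : (fun _ : Fin n => (1 : ℤˣ)) ≠ (fun _ => (-1 : ℤˣ)) := by
    intro h
    have := congrFun h ⟨0, hn⟩
    exact absurd this (by decide)
  have h2 : ∑ e ∈ ({(fun _ : Fin n => (1 : ℤˣ)), (fun _ => (-1 : ℤˣ))} : Finset (Fin n → ℤˣ)),
      (ndeq (signed e q) a).ncard ≤ ∑ e : Fin n → ℤˣ, (ndeq (signed e q) a).ncard :=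
    Finset.sum_le_sum_of_subset (Finset.subset_univ _)
  rw [Finset.sum_pair hne, equilibria_neg, hq] at h2
  have h3 : 2 * (ndeq q a).ncard ≤ 2 * (2 ^ (n - 1) * (3 * n - 2) ^ 3) := by
    have h4 : 2 * (2 ^ (n - 1) * (3 * n - 2) ^ 3) = 2 ^ n * (3 * n - 2) ^ 3 := by
      obtain ⟨k, rfl⟩ : ∃ k, n = k + 1 := ⟨n - 1, by omega⟩
      rw [Nat.add_sub_cancel, pow_succ]
      ring
    rw [h4]
    omega
  omega

end Pool.Agent.Helper59.BZ
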